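import Pool.Agent.V11109.Conj.Final

/-!
# State-preserving approximate conjugacy of unital maps from the Cuntz algebra fails

`D` is the C*-algebra generated by the creation operators `S 0, S 1, ...` on the full Fock space and
the map `φ₁` sends the generators of the Cuntz algebra to `S 2, S 3, ...`. With the isometries
`a = S 2 S 0`, `b = S 3 S 0` the state is `μ(x) = (vac(a^* x a) + vac(b^* x b)) / 2`. The map
`φ₂` is `U^* φ₁ U` for an explicit unitary `U`. The projection `φ₁(s₀ s₀^*)` lies in the
centralizer of `μ`, which is invariant under `μ`-preserving automorphisms, but `φ₂(s₀ s₀^*)` has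
distance at least `1/8` from it.
-/

set_option autoImplicit false

namespace Pool.Agent.Results.MP_ced2c5_an.NotStateConjugate

open Pool.Agent.V11109.Conj Pool.Agent.V11109.Fock

universe u

/-- Let `A` be the Cuntz algebra `O_∞`. There are a separable, simple, purely infinite unital
C*-algebra `D`, a state `μ` on `D` and unital homomorphisms `φ₁`, `φ₂ : A → D` with
`μ ∘ φ₁ = μ ∘ φ₂`, an `ε > 0` and a finite set `F` such that for every `μ`-preserving automorphism
`α` of `D` (inner or not) there is an `a ∈ F` with `ε ≤ ‖φ₂ a - α (φ₁ a)‖`. The second statement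
says that this also holds for some C*-algebra generated by a sequence of isometries with mutually
orthogonal ranges. -/
theorem result :
    (∀ (A : Type u) [CStarAlgebra A] (s : ℕ → A), IsCuntzInfty s → NotConjugate A) ∧
      ∃ (A : Type) (_ : CStarAlgebra A) (s : ℕ → A), IsCuntzFamily s ∧ Generates s ∧
        NotConjugate A :=
  ⟨fun _ _ _ hs => notConjugate_universal hs,
    OT tt_cuntz, inferInstance, st tt_cuntz, st_cuntz tt_cuntz, st_generates tt_cuntz,
    notConjugate_OT⟩

end Pool.Agent.Results.MP_ced2c5_an.NotStateConjugate
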